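import Pool.Agent.R115.UB.Stm

/-! Double counting of disjoint pairs. -/

set_option autoImplicit false

namespace Pool.Agent.R115.UB

open Finset

theorem dc_arith (k m : ℕ) (hk : 1 ≤ k) (hm : k < m) :
    (m + k - 1).choose (k - 1) * m.choose k = (m + k - 1).choose k * (m - 1).choose (k - 1) := by
  obtain ⟨k', rfl⟩ : ∃ k', k = k' + 1 := ⟨k - 1, by omega⟩
  obtain ⟨m', rfl⟩ : ∃ m', m = m' + 1 := ⟨m - 1, by omega⟩
  have h1 : (m' + 1 + (k' + 1) - 1).choose (k' + 1) * (k' + 1)
      = (m' + 1 + (k' + 1) - 1).choose k' * (m' + 1) := by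
    rw [Nat.choose_succ_right_eq]
    congr 1
    omega
  have h2 : (m' + 1) * m'.choose k' = (m' + 1).choose (k' + 1) * (k' + 1) :=
    Nat.add_one_mul_choose_eq m' k'
  simp only [Nat.add_sub_cancel]
  have h3 : (k' + 1) * ((m' + 1 + (k' + 1) - 1).choose k' * (m' + 1).choose (k' + 1))
      = (k' + 1) * ((m' + 1 + (k' + 1) - 1).choose (k' + 1) * m'.choose k') := by
    calc (k' + 1) * ((m' + 1 + (k' + 1) - 1).choose k' * (m' + 1).choose (k' + 1))
        = (m' + 1 + (k' + 1) - 1).choose k' * ((m' + 1).choose (k' + 1) * (k' + 1)) := by ring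
      _ = (m' + 1 + (k' + 1) - 1).choose k' * (m' + 1) * m'.choose k' := by rw [← h2]; ring
      _ = (m' + 1 + (k' + 1) - 1).choose (k' + 1) * (k' + 1) * m'.choose k' := by rw [h1]
      _ = _ := by ring
  exact Nat.eq_of_mul_eq_mul_left (by omega) h3

/-- the bound inside a set of `m` elements with nonnegative sum -/
theorem dc_inside {n : ℕ} (k m : ℕ)
    (hM : ∀ x : Fin m → ℝ, 0 ≤ ∑ i, x i → (m - 1).choose (k - 1) ≤ s k x)
    (x : Fin n → ℝ) (C : Finset (Fin n)) (hC : C.card = m) (hs : 0 ≤ ∑ i ∈ C, x i) :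
    (m - 1).choose (k - 1) ≤ ((C.powersetCard k).filter (fun S => 0 ≤ ∑ i ∈ S, x i)).card := by
  have e0 : Fin m ≃ C := (C.equivFinOfCardEq hC).symm
  set e : Fin m ↪ Fin n := e0.toEmbedding.trans (Function.Embedding.subtype _) with he
  have h1 : ∑ i, x (e i) = ∑ i ∈ C, x i := by
    rw [← Finset.sum_coe_sort C x]
    exact Equiv.sum_comp e0 (fun c : C => x c)
  have h2 := hM (fun i => x (e i)) (by rw [h1]; exact hs)
  refine h2.trans ?_
  unfold s
  apply Finset.card_le_card_of_injOn (fun S => S.map e)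
  · intro S hS
    have hS := Finset.mem_filter.1 (Finset.mem_coe.1 hS)
    rw [Finset.mem_powersetCard] at hS
    apply Finset.mem_coe.2
    rw [Finset.mem_filter, Finset.mem_powersetCard]
    refine ⟨⟨?_, ?_⟩, ?_⟩
    · intro j hj
      obtain ⟨i, _, rfl⟩ := Finset.mem_map.1 hj
      exact (e0 i).2
    · rw [Finset.card_map]; exact hS.1.2
    · rw [Finset.sum_map]; exact hS.2
  · intro S _ S' _ h
    exact Finset.map_injective e h

theorem dc_aux (k m n : ℕ) (hn : n = m + k) (hk : 1 ≤ k) (hkm : k < m)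
    (hM : ∀ x : Fin m → ℝ, 0 ≤ ∑ i, x i → (m - 1).choose (k - 1) ≤ s k x)
    (x : Fin n → ℝ) (hx : 0 ≤ ∑ i, x i) (hs : s k x = (n - 1).choose (k - 1))
    (A0 B0 : Finset (Fin n)) (hA0 : A0.card = k) (hB0 : B0.card = k)
    (hA : 0 ≤ ∑ i ∈ A0, x i) (hB : 0 ≤ ∑ i ∈ B0, x i) : ¬ Disjoint A0 B0 := by
  intro hdis
  set U : Finset (Finset (Fin n)) := (univ : Finset (Fin n)).powersetCard k with hU
  set F := U.filter (fun S => 0 ≤ ∑ i ∈ S, x i) with hF
  set G := U.filter (fun S => ¬ 0 ≤ ∑ i ∈ S, x i) with hG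
  have hFc : F.card = (n - 1).choose (k - 1) := hs
  have hFG : F.card + G.card = n.choose k := by
    rw [hF, hG, Finset.card_filter_add_card_filter_not, hU, Finset.card_powersetCard,
      Finset.card_univ, Fintype.card_fin]
  have hGc : G.card = (n - 1).choose k := by
    have h1 : n.choose k = (n - 1).choose (k - 1) + (n - 1).choose k := by
      obtain ⟨k', rfl⟩ : ∃ k', k = k' + 1 := ⟨k - 1, by omega⟩
      have h2 : n = (n - 1) + 1 := by omega
      rw [h2, Nat.choose_succ_succ]
      simp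
    omega
  have hU1 : ∀ B ∈ F, (F.filter (fun A => Disjoint A B)).card
      + (G.filter (fun A => Disjoint A B)).card = m.choose k := by
    intro B hB'
    have hBc : B.card = k := (Finset.mem_powersetCard.1 (Finset.mem_filter.1 hB').1).2
    have h1 : F.filter (fun A => Disjoint A B) ∪ G.filter (fun A => Disjoint A B)
        = Bᶜ.powersetCard k := by
      ext A
      simp only [hF, hG, hU, Finset.mem_union, Finset.mem_filter, Finset.mem_powersetCard,
        Finset.subset_univ, true_and]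
      constructor
      · rintro (⟨⟨h2, _⟩, h3⟩ | ⟨⟨h2, _⟩, h3⟩)
        · exact ⟨Finset.subset_compl_iff_disjoint_right.2 h3, h2⟩
        · exact ⟨Finset.subset_compl_iff_disjoint_right.2 h3, h2⟩
      · rintro ⟨h2, h3⟩
        by_cases h4 : 0 ≤ ∑ i ∈ A, x i
        · exact Or.inl ⟨⟨h3, h4⟩, Finset.subset_compl_iff_disjoint_right.1 h2⟩
        · exact Or.inr ⟨⟨h3, h4⟩, Finset.subset_compl_iff_disjoint_right.1 h2⟩
    rw [← Finset.card_union_of_disjoint, h1, Finset.card_powersetCard, Finset.card_compl,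
      Fintype.card_fin, hBc]
    · congr 1; omega
    · rw [Finset.disjoint_left]
      intro A h2 h3
      simp only [hF, hG, Finset.mem_filter] at h2 h3
      exact h3.1.2 h2.1.2
  have hsum1 : ∑ B ∈ F, (F.filter (fun A => Disjoint A B)).card
      + ∑ B ∈ F, (G.filter (fun A => Disjoint A B)).card = F.card * m.choose k := by
    rw [← Finset.sum_add_distrib, Finset.sum_congr rfl hU1, Finset.sum_const, smul_eq_mul]
  have hswap : ∑ B ∈ F, (G.filter (fun A => Disjoint A B)).card
      = ∑ A ∈ G, (F.filter (fun B => Disjoint A B)).card := by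
    simp only [Finset.card_filter]
    exact Finset.sum_comm
  have hlow : G.card * (m - 1).choose (k - 1) ≤ ∑ A ∈ G, (F.filter (fun B => Disjoint A B)).card := by
    rw [← smul_eq_mul, ← Finset.sum_const]
    apply Finset.sum_le_sum
    intro A hA'
    have hA1 := Finset.mem_filter.1 hA'
    have hAc : A.card = k := (Finset.mem_powersetCard.1 hA1.1).2
    have hcc : (Aᶜ).card = m := by
      rw [Finset.card_compl, Fintype.card_fin, hAc]; omega
    have hcs : 0 ≤ ∑ i ∈ Aᶜ, x i := by
      have := Finset.sum_add_sum_compl A x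
      have h2 := not_le.1 hA1.2
      linarith
    refine (dc_inside k m hM x Aᶜ hcc hcs).trans (Finset.card_le_card ?_)
    intro B hB'
    rw [Finset.mem_filter, Finset.mem_powersetCard] at hB'
    rw [Finset.mem_filter, hF, Finset.mem_filter, hU, Finset.mem_powersetCard]
    exact ⟨⟨⟨Finset.subset_univ _, hB'.1.2⟩, hB'.2⟩,
      (Finset.subset_compl_iff_disjoint_right.1 hB'.1.1).symm⟩
  have har := dc_arith k m hk hkm
  rw [← hn, ← hFc, ← hGc] at har
  have hD : ∑ B ∈ F, (F.filter (fun A => Disjoint A B)).card = 0 := by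
    rw [hswap] at hsum1
    omega
  rw [Finset.sum_eq_zero_iff] at hD
  have hB0F : B0 ∈ F := Finset.mem_filter.2
    ⟨Finset.mem_powersetCard.2 ⟨Finset.subset_univ _, hB0⟩, hB⟩
  have hA0F : A0 ∈ F := Finset.mem_filter.2
    ⟨Finset.mem_powersetCard.2 ⟨Finset.subset_univ _, hA0⟩, hA⟩
  have h1 := hD B0 hB0F
  rw [Finset.card_eq_zero] at h1
  have h2 : A0 ∈ F.filter (fun A => Disjoint A B0) := Finset.mem_filter.2 ⟨hA0F, hdis⟩
  rw [h1] at h2
  exact absurd h2 (Finset.notMem_empty _)

theorem dc : S_DC := by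
  intro k m hk hkm hM x hx hs A0 B0 hA0 hB0 hA hB
  exact dc_aux k m (m + k) rfl hk hkm hM x hx hs A0 B0 hA0 hB0 hA hB

end Pool.Agent.R115.UB
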