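import Pool.Agent.R115.UB.Stm

/-! # Uniqueness in the Erdos-Ko-Rado theorem for shifted families -/

set_option autoImplicit false

namespace Pool.Agent.R115.UB

open Finset

/-- restriction to `Fin n` -/
def ekr_phi (n : ℕ) (S : Finset ℕ) : Finset (Fin n) := univ.filter fun i : Fin n => (i : ℕ) ∈ S

theorem ekr_phi_map {n : ℕ} {S : Finset ℕ} (h : S ⊆ range n) :
    (ekr_phi n S).map Fin.valEmbedding = S := by
  ext x
  simp only [ekr_phi, mem_map, mem_filter, mem_univ, true_and, Fin.valEmbedding_apply]
  constructor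
  · rintro ⟨i, hi, rfl⟩
    exact hi
  · intro hx
    exact ⟨⟨x, mem_range.1 (h hx)⟩, hx, rfl⟩

theorem ekr_bound (k n : ℕ) (hk : 2 * k ≤ n) (F : Finset (Finset ℕ))
    (hF : ∀ S ∈ F, S ⊆ range n ∧ S.card = k) (hint : ∀ S ∈ F, ∀ T ∈ F, ¬ Disjoint S T) :
    F.card ≤ (n - 1).choose (k - 1) := by
  classical
  have hinj : Set.InjOn (ekr_phi n) (F : Set (Finset ℕ)) := by
    intro S hS T hT h
    rw [← ekr_phi_map (hF S hS).1, ← ekr_phi_map (hF T hT).1, h]
  rw [← card_image_of_injOn hinj]
  refine Finset.erdos_ko_rado ?_ ?_ (by omega)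
  · intro a ha b hb hab
    obtain ⟨S, hS, rfl⟩ := mem_image.1 (mem_coe.1 ha)
    obtain ⟨T, hT, rfl⟩ := mem_image.1 (mem_coe.1 hb)
    apply hint S hS T hT
    rw [← ekr_phi_map (hF S hS).1, ← ekr_phi_map (hF T hT).1, disjoint_map]
    exact hab
  · intro a ha
    obtain ⟨S, hS, rfl⟩ := mem_image.1 (mem_coe.1 ha)
    rw [← card_map Fin.valEmbedding, ekr_phi_map (hF S hS).1]
    exact (hF S hS).2

theorem ekr_star (m k : ℕ) (_ : 1 ≤ k) (hm : 1 ≤ m) :
    (((range m).powersetCard k).filter (fun S => 0 ∈ S)).card ≤ (m - 1).choose (k - 1) := by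
  classical
  have h1 : (((range m).erase 0).powersetCard (k - 1)).card = (m - 1).choose (k - 1) := by
    rw [card_powersetCard, card_erase_of_mem (mem_range.2 hm), card_range]
  rw [← h1]
  refine card_le_card_of_injOn (fun S => S.erase 0) ?_ ?_
  · intro S hS
    obtain ⟨h2, h3⟩ := mem_filter.1 (mem_coe.1 hS)
    obtain ⟨h4, h5⟩ := mem_powersetCard.1 h2
    refine mem_coe.2 (mem_powersetCard.2 ⟨erase_subset_erase 0 h4, ?_⟩)
    rw [card_erase_of_mem h3, h5]
  · intro S hS T hT h
    have h3 := (mem_filter.1 (mem_coe.1 hS)).2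
    have h4 := (mem_filter.1 (mem_coe.1 hT)).2
    have h5 : S.erase 0 = T.erase 0 := h
    rw [← insert_erase h3, ← insert_erase h4, h5]

theorem ekr : S_EKR := by
  classical
  intro k
  induction k with
  | zero => intro n h1; omega
  | succ k ih =>
    intro n _ hn F hF hsh hint hcard
    rcases Nat.eq_zero_or_pos k with rfl | hk
    · intro S hS
      by_contra h0
      obtain ⟨j, rfl⟩ := card_eq_one.1 (hF S hS).2
      have hj : 0 < j := Nat.pos_of_ne_zero fun h => h0 (by rw [h]; exact mem_singleton_self 0)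
      have h1 := hsh _ hS 0 j hj (mem_singleton_self j) h0
      have h2 : insert 0 (({j} : Finset ℕ).erase j) = {0} := by
        rw [erase_singleton]
        rfl
      rw [h2] at h1
      apply hint _ h1 _ hS
      rw [disjoint_singleton]
      omega
    · obtain ⟨m, rfl⟩ : ∃ m, n = m + 1 := ⟨n - 1, by omega⟩
      set F0 := F.filter (fun S => m ∉ S) with hF0
      set F1 := (F.filter (fun S => m ∈ S)).image (fun S => S.erase m) with hF1
      have hinj : Set.InjOn (fun S : Finset ℕ => S.erase m)
          (F.filter (fun S => m ∈ S) : Finset (Finset ℕ)) := by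
        intro S hS T hT h
        have h3 := (mem_filter.1 (mem_coe.1 hS)).2
        have h4 := (mem_filter.1 (mem_coe.1 hT)).2
        have h5 : S.erase m = T.erase m := h
        rw [← insert_erase h3, ← insert_erase h4, h5]
      have hc : F1.card + F0.card = F.card := by
        rw [hF1, card_image_of_injOn hinj]
        exact card_filter_add_card_filter_not (fun S => m ∈ S)
      have hmem1 : ∀ T, T ∈ F1 ↔ ∃ S ∈ F, m ∈ S ∧ S.erase m = T := by
        intro T
        rw [hF1, mem_image]
        simp only [mem_filter, and_assoc]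
      have hsub : ∀ S ∈ F, S.erase m ⊆ range m := by
        intro S hS x hx
        have h1 := mem_range.1 ((hF S hS).1 (mem_of_mem_erase hx))
        have h2 := ne_of_mem_erase hx
        exact mem_range.2 (by omega)
      have hF0' : ∀ S ∈ F0, S ⊆ range m ∧ S.card = k + 1 := by
        intro S hS
        obtain ⟨h1, h2⟩ := mem_filter.1 hS
        refine ⟨?_, (hF S h1).2⟩
        rw [← erase_eq_of_notMem h2]
        exact hsub S h1
      have hF1' : ∀ S ∈ F1, S ⊆ range m ∧ S.card = k := by
        intro T hT
        obtain ⟨S, h1, h2, rfl⟩ := (hmem1 T).1 hT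
        refine ⟨hsub S h1, ?_⟩
        rw [card_erase_of_mem h2, (hF S h1).2]
        rfl
      have hint1 : ∀ S ∈ F1, ∀ T ∈ F1, ¬ Disjoint S T := by
        intro S' hS' T' hT' hd
        obtain ⟨hs1, hs2⟩ := hF1' S' hS'
        obtain ⟨ht1, ht2⟩ := hF1' T' hT'
        obtain ⟨S, h1, h2, rfl⟩ := (hmem1 S').1 hS'
        obtain ⟨T, h3, h4, rfl⟩ := (hmem1 T').1 hT'
        -- a free element
        have h5 : (S.erase m ∪ T.erase m).card < (range m).card := by
          refine lt_of_le_of_lt (card_union_le _ _) ?_
          rw [hs2, ht2, card_range]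
          omega
        obtain ⟨i, hi, hi2⟩ := exists_mem_notMem_of_card_lt_card h5
        have hi3 := mem_range.1 hi
        rw [mem_union, not_or] at hi2
        have hiS : i ∉ S := fun h => hi2.1 (mem_erase.2 ⟨by omega, h⟩)
        have hiT : i ∉ T := fun h => hi2.2 (mem_erase.2 ⟨by omega, h⟩)
        have h6 := hsh S h1 i m hi3 h2 hiS
        apply hint _ h6 T h3
        rw [disjoint_insert_left]
        refine ⟨hiT, ?_⟩
        rw [disjoint_left] at hd ⊢
        intro x hx hxT
        exact hd hx (mem_erase.2 ⟨ne_of_mem_erase hx, hxT⟩)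
      have hsh1 : Shifted F1 := by
        intro S' hS' i j hij hj hi
        have hs1 := (hF1' S' hS').1
        obtain ⟨S, h1, h2, rfl⟩ := (hmem1 S').1 hS'
        have hjm := mem_range.1 (hs1 hj)
        have hiS : i ∉ S := fun h => hi (mem_erase.2 ⟨by omega, h⟩)
        have h3 := hsh S h1 i j hij (mem_of_mem_erase hj) hiS
        refine (hmem1 _).2 ⟨_, h3, ?_, ?_⟩
        · exact mem_insert_of_mem (mem_erase.2 ⟨by omega, h2⟩)
        · rw [erase_insert_of_ne (by omega), erase_right_comm]
      have hb0 := ekr_bound (k + 1) m (by omega) F0 hF0'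
        (fun S hS T hT => hint S (mem_filter.1 hS).1 T (mem_filter.1 hT).1)
      have hb1 := ekr_bound k m (by omega) F1 hF1' hint1
      have hpas : m.choose k = (m - 1).choose (k - 1) + (m - 1).choose k := by
        obtain ⟨m', rfl⟩ : ∃ m', m = m' + 1 := ⟨m - 1, by omega⟩
        obtain ⟨k', rfl⟩ : ∃ k', k = k' + 1 := ⟨k - 1, by omega⟩
        exact Nat.choose_succ_succ m' k'
      have h7 : F.card = m.choose k := hcard
      have h8 : k + 1 - 1 = k := rfl
      rw [h8] at hb0
      have hcard1 : F1.card = (m - 1).choose (k - 1) := by omega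
      have hz := ih m hk (by omega) F1 hF1' hsh1 hint1 hcard1
      have hstar : F1 = ((range m).powersetCard k).filter (fun S => 0 ∈ S) := by
        refine eq_of_subset_of_card_le (fun S hS => ?_) ?_
        · exact mem_filter.2 ⟨mem_powersetCard.2 (hF1' S hS), hz S hS⟩
        · rw [hcard1]
          exact ekr_star m k hk (by omega)
      intro S hS
      by_contra h0
      by_cases hm : m ∈ S
      · exact h0 (mem_of_mem_erase (hz _ ((hmem1 _).2 ⟨S, hS, hm, rfl⟩)))
      · obtain ⟨h1, h2⟩ := hF0' S (mem_filter.2 ⟨hS, hm⟩)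
        have h3 : k - 1 ≤ ((range m) \ (insert 0 S)).card := by
          have h4 : insert 0 S ⊆ range m := by
            intro x hx
            rcases mem_insert.1 hx with rfl | hx
            · exact mem_range.2 (by omega)
            · exact h1 hx
          rw [card_sdiff_of_subset h4, card_insert_of_notMem h0, h2, card_range]
          omega
        obtain ⟨T', hT', hT'c⟩ := exists_subset_card_eq h3
        have h0T : 0 ∉ T' := fun h => (mem_sdiff.1 (hT' h)).2 (mem_insert_self 0 S)
        have hTm : insert 0 T' ∈ F1 := by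
          rw [hstar]
          refine mem_filter.2 ⟨mem_powersetCard.2 ⟨?_, ?_⟩, mem_insert_self 0 T'⟩
          · intro x hx
            rcases mem_insert.1 hx with rfl | hx
            · exact mem_range.2 (by omega)
            · exact (mem_sdiff.1 (hT' hx)).1
          · rw [card_insert_of_notMem h0T, hT'c]
            omega
        obtain ⟨U, hU, hmU, hUe⟩ := (hmem1 _).1 hTm
        apply hint S hS U hU
        rw [← insert_erase hmU, hUe, disjoint_insert_right, disjoint_insert_right]
        refine ⟨hm, h0, ?_⟩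
        rw [disjoint_right]
        intro x hx hxS
        exact (mem_sdiff.1 (hT' hx)).2 (mem_insert_of_mem hxS)

end Pool.Agent.R115.UB
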