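import Pool.Agent.R115.UB.DC

/-! Assembly. -/

set_option autoImplicit false

namespace Pool.Agent.R115.UB

open Finset

/-- the bound at `n` -/
def MMS (k n : ℕ) : Prop :=
  ∀ x : Fin n → ℝ, 0 ≤ ∑ i, x i → (n - 1).choose (k - 1) ≤ s k x

/-- `Works k m`: the bound at all `n ≥ m` -/
def Works (k m : ℕ) : Prop := ∀ n : ℕ, m ≤ n → MMS k n

/-- the bound fails at `k + 1` -/
theorem not_mms (k : ℕ) (hk : 2 ≤ k) : ¬ MMS k (k + 1) := by
  intro h
  have h1 := h (fun i => if i = Fin.last k then -(k:ℝ) else 1) (by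
    rw [Fin.sum_univ_castSucc]
    simp [Fin.castSucc_ne_last])
  have h2 : s k (fun i : Fin (k + 1) => if i = Fin.last k then -(k:ℝ) else 1) ≤ 1 := by
    unfold s
    rw [Finset.card_le_one]
    have key : ∀ S ∈ ((univ : Finset (Fin (k+1))).powersetCard k).filter
        (fun S => 0 ≤ ∑ i ∈ S, (if i = Fin.last k then -(k:ℝ) else 1)), S = univ.erase (Fin.last k) := by
      intro S hS
      rw [Finset.mem_filter, Finset.mem_powersetCard] at hS
      obtain ⟨⟨_, hc⟩, hs⟩ := hS
      have hl : Fin.last k ∉ S := by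
        intro hl
        have h3 : ∑ i ∈ S, (if i = Fin.last k then -(k:ℝ) else 1) = -(k:ℝ) + (k - 1) := by
          rw [← Finset.add_sum_erase _ _ hl]
          simp only [if_true]
          congr 1
          have h4 : ∀ i ∈ S.erase (Fin.last k), (if i = Fin.last k then -(k:ℝ) else 1) = 1 := by
            intro i hi
            rw [if_neg (Finset.ne_of_mem_erase hi)]
          rw [Finset.sum_congr rfl h4, Finset.sum_const, Finset.card_erase_of_mem hl, hc,
            nsmul_eq_mul, mul_one, Nat.cast_sub (by omega)]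
          simp
        rw [h3] at hs
        linarith
      apply Finset.eq_of_subset_of_card_le
      · intro i hi
        exact Finset.mem_erase.2 ⟨fun h => hl (h ▸ hi), Finset.mem_univ _⟩
      · rw [Finset.card_erase_of_mem (Finset.mem_univ _), Finset.card_univ, Fintype.card_fin, hc]
        omega
    intro S hS S' hS'
    rw [key S hS, key S' hS']
  have h3 : (k + 1 - 1).choose (k - 1) = k := by
    rw [Nat.add_sub_cancel]
    conv_lhs => rw [← Nat.choose_symm (by omega : k - 1 ≤ k)]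
    have : k - (k - 1) = 1 := by omega
    rw [this, Nat.choose_one_right]
  rw [h3] at h1
  omega

theorem star_card (n k : ℕ) (hk : 1 ≤ k) (hn : 0 < n) :
    (((univ : Finset (Fin n)).powersetCard k).filter (fun S => (⟨0, hn⟩ : Fin n) ∈ S)).card
      ≤ (n - 1).choose (k - 1) := by
  have h1 : ((univ : Finset (Fin n)).powersetCard k).filter (fun S => (⟨0, hn⟩ : Fin n) ∈ S) ⊆
      (((univ : Finset (Fin n)).erase ⟨0, hn⟩).powersetCard (k - 1)).image (insert ⟨0, hn⟩) := by
    intro S hS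
    rw [Finset.mem_filter, Finset.mem_powersetCard] at hS
    refine Finset.mem_image.2 ⟨S.erase ⟨0, hn⟩, ?_, Finset.insert_erase hS.2⟩
    rw [Finset.mem_powersetCard]
    refine ⟨Finset.erase_subset_erase _ (Finset.subset_univ _), ?_⟩
    rw [Finset.card_erase_of_mem hS.2, hS.1.2]
  refine (Finset.card_le_card h1).trans (Finset.card_image_le.trans ?_)
  rw [Finset.card_powersetCard, Finset.card_erase_of_mem (Finset.mem_univ _), Finset.card_univ,
    Fintype.card_fin]

/-- uniqueness at `n` when the bound holds at `n - k` -/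
theorem unique_of_mms (hE : S_EKR) (k m n : ℕ) (hk : 1 ≤ k) (hkm : k < m) (hnm : n = m + k)
    (hM : MMS k m) (x : Fin n → ℝ) (hx : Antitone x) (h0 : 0 ≤ ∑ i, x i)
    (hs : s k x = (n - 1).choose (k - 1)) (hn : 0 < n) (S : Finset (Fin n)) (hS : S.card = k) :
    0 ≤ ∑ i ∈ S, x i ↔ (⟨0, hn⟩ : Fin n) ∈ S := by
  set F0 : Finset (Finset (Fin n)) :=
    ((univ : Finset (Fin n)).powersetCard k).filter (fun S => 0 ≤ ∑ i ∈ S, x i) with hF0
  have hF0c : F0.card = (n - 1).choose (k - 1) := hs
  have hmemF0 : ∀ S : Finset (Fin n), S ∈ F0 ↔ S.card = k ∧ 0 ≤ ∑ i ∈ S, x i := by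
    intro S
    rw [hF0, Finset.mem_filter, Finset.mem_powersetCard]
    simp
  have hinter : ∀ A ∈ F0, ∀ B ∈ F0, ¬ Disjoint A B := by
    intro A hA B hB
    rw [hmemF0] at hA hB
    exact dc_aux k m n hnm hk hkm hM x h0 hs A B hA.1 hB.1 hA.2 hB.2
  set F : Finset (Finset ℕ) := F0.image (fun S => S.map Fin.valEmbedding) with hF
  have hinj : Function.Injective (fun S : Finset (Fin n) => S.map Fin.valEmbedding) :=
    Finset.map_injective _
  have hFc : F.card = (n - 1).choose (k - 1) := by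
    rw [hF, Finset.card_image_of_injective _ hinj, hF0c]
  have hsub : ∀ T ∈ F, T ⊆ range n ∧ T.card = k := by
    intro T hT
    obtain ⟨S, hS, rfl⟩ := Finset.mem_image.1 hT
    refine ⟨?_, by rw [Finset.card_map]; exact ((hmemF0 S).1 hS).1⟩
    intro i hi
    obtain ⟨a, _, rfl⟩ := Finset.mem_map.1 hi
    exact Finset.mem_range.2 a.2
  have hshift : Shifted F := by
    intro T hT i j hij hj hi
    obtain ⟨S, hS, rfl⟩ := Finset.mem_image.1 hT
    obtain ⟨j', hj', rfl⟩ := Finset.mem_map.1 hj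
    have hjn : (j' : ℕ) < n := j'.2
    have hij' : i < (j' : ℕ) := hij
    set i' : Fin n := ⟨i, by omega⟩ with hi'
    have hi'S : i' ∉ S := by
      intro h
      exact hi (Finset.mem_map.2 ⟨i', h, rfl⟩)
    refine Finset.mem_image.2 ⟨insert i' (S.erase j'), ?_, ?_⟩
    · rw [hmemF0] at hS ⊢
      have hne : i' ∉ S.erase j' := fun h => hi'S (Finset.mem_of_mem_erase h)
      constructor
      · rw [Finset.card_insert_of_notMem hne, Finset.card_erase_of_mem hj', hS.1]; omega
      · rw [Finset.sum_insert hne, Finset.sum_erase_eq_sub hj']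
        have : x j' ≤ x i' := hx (by rw [Fin.le_def]; exact hij'.le)
        linarith [hS.2]
    · rw [Finset.map_insert, Finset.map_erase]
      rfl
  have hint : ∀ A ∈ F, ∀ B ∈ F, ¬ Disjoint A B := by
    intro A hA B hB
    obtain ⟨A', hA', rfl⟩ := Finset.mem_image.1 hA
    obtain ⟨B', hB', rfl⟩ := Finset.mem_image.1 hB
    rw [Finset.disjoint_map]
    exact hinter A' hA' B' hB'
  have hall := hE k n hk (by omega) F hsub hshift hint hFc
  have hstar : F0 ⊆ ((univ : Finset (Fin n)).powersetCard k).filter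
      (fun S => (⟨0, hn⟩ : Fin n) ∈ S) := by
    intro A hA
    have h1 := hall (A.map Fin.valEmbedding) (Finset.mem_image.2 ⟨A, hA, rfl⟩)
    obtain ⟨a, ha, ha0⟩ := Finset.mem_map.1 h1
    have h2 : a = ⟨0, hn⟩ := Fin.ext ha0
    rw [Finset.mem_filter]
    exact ⟨(Finset.mem_filter.1 hA).1, h2 ▸ ha⟩
  have heq := Finset.eq_of_subset_of_card_le hstar
    ((star_card n k hk hn).trans_eq hF0c.symm)
  have h1 : S ∈ F0 ↔ S ∈ ((univ : Finset (Fin n)).powersetCard k).filter
      (fun S => (⟨0, hn⟩ : Fin n) ∈ S) := by rw [← heq]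
  rw [hmemF0, Finset.mem_filter, Finset.mem_powersetCard] at h1
  constructor
  · intro h; exact (h1.1 ⟨hS, h⟩).2
  · intro h; exact (h1.2 ⟨⟨Finset.subset_univ _, hS⟩, h⟩).2

theorem unique_of_works (hE : S_EKR) (k m n : ℕ) (hk : 2 ≤ k) (hW : Works k m)
    (hnm : m + k ≤ n) (x : Fin n → ℝ) (hx : Antitone x) (h0 : 0 ≤ ∑ i, x i)
    (hs : s k x = (n - 1).choose (k - 1)) (hn : 0 < n) (S : Finset (Fin n)) (hS : S.card = k) :
    0 ≤ ∑ i ∈ S, x i ↔ (⟨0, hn⟩ : Fin n) ∈ S := by
  have hm : k + 1 < m := by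
    by_contra h
    exact not_mms k hk (hW (k + 1) (by omega))
  exact unique_of_mms hE k (n - k) n (by omega) (by omega) (by omega) (hW (n - k) (by omega))
    x hx h0 hs hn S hS

end Pool.Agent.R115.UB
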