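import Mathlib

/-! Uniqueness of extremal vectors for nonnegative `k`-sums: statements of the pieces. -/

set_option autoImplicit false

namespace Pool.Agent.R115.UB

open Finset

/-- a family closed under down-shifts -/
def Shifted (F : Finset (Finset ℕ)) : Prop :=
  ∀ S ∈ F, ∀ i j : ℕ, i < j → j ∈ S → i ∉ S → insert i (S.erase j) ∈ F

/-- Uniqueness in the Erdos-Ko-Rado theorem for shifted families: a shifted intersecting family of
`k`-subsets of `{0,...,n-1}`, `n ≥ 2k+1`, with `(n-1).choose (k-1)` members consists of sets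
containing `0`. -/
def S_EKR : Prop := ∀ (k n : ℕ), 1 ≤ k → 2 * k + 1 ≤ n → ∀ F : Finset (Finset ℕ),
  (∀ S ∈ F, S ⊆ range n ∧ S.card = k) → Shifted F → (∀ S ∈ F, ∀ T ∈ F, ¬ Disjoint S T) →
  F.card = (n - 1).choose (k - 1) → ∀ S ∈ F, 0 ∈ S

/-- the number of nonnegative `k`-sums of `x` -/
noncomputable def s {n : ℕ} (k : ℕ) (x : Fin n → ℝ) : ℕ :=
  (((univ : Finset (Fin n)).powersetCard k).filter (fun S => 0 ≤ ∑ i ∈ S, x i)).card

/-- equality at `n = m + k` forces intersecting, if the bound holds at `m` -/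
def S_DC : Prop := ∀ (k m : ℕ), 1 ≤ k → k < m →
  (∀ x : Fin m → ℝ, 0 ≤ ∑ i, x i → (m - 1).choose (k - 1) ≤ s k x) →
  ∀ x : Fin (m + k) → ℝ, 0 ≤ ∑ i, x i → s k x = (m + k - 1).choose (k - 1) →
  ∀ A B : Finset (Fin (m + k)), A.card = k → B.card = k → 0 ≤ ∑ i ∈ A, x i →
    0 ≤ ∑ i ∈ B, x i → ¬ Disjoint A B

end Pool.Agent.R115.UB
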